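import Pool.Agent.G02.StmtsS

/-!
# Squad G02, row T4B: the generic fibre
-/

set_option autoImplicit false

namespace Pool.Agent.G02.H7

open Polynomial Pool.Agent.NJ Pool.Agent.G02

theorem t4b : T4bStmt := by
  intro E e b hinf X Y heq
  by_contra hne
  push Not at hne
  obtain ⟨x, d₁, hd₁, hX⟩ := IsFractionRing.div_surjective (A := ℚ[X]) X
  obtain ⟨y, d₂, hd₂, hY⟩ := IsFractionRing.div_surjective (A := ℚ[X]) Y
  have hd₁0 : d₁ ≠ 0 := nonZeroDivisors.ne_zero hd₁
  have hd₂0 : d₂ ≠ 0 := nonZeroDivisors.ne_zero hd₂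
  set f := algebraMap ℚ[X] (RatFunc ℚ) with hf
  have hinj : Function.Injective f := IsFractionRing.injective ℚ[X] (RatFunc ℚ)
  have hfd₁ : f d₁ ≠ 0 := by
    intro h
    exact hd₁0 (hinj (by rw [h, map_zero]))
  have hfd₂ : f d₂ ≠ 0 := by
    intro h
    exact hd₂0 (hinj (by rw [h, map_zero]))
  -- common denominator
  set d := d₁ * d₂ with hd
  set n₁ := x * d₂ with hn₁
  set n₂ := y * d₁ with hn₂
  have hd0 : d ≠ 0 := mul_ne_zero hd₁0 hd₂0
  have hfd : f d ≠ 0 := by
    rw [hd, map_mul]; exact mul_ne_zero hfd₁ hfd₂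
  have hX' : X = f n₁ / f d := by
    rw [← hX, hn₁, hd, map_mul, map_mul]; field_simp
  have hY' : Y = f n₂ / f d := by
    rw [← hY, hn₂, hd, map_mul, map_mul]; field_simp
  have hE : n₂ ^ 2 * d + E.a₁ * n₁ * n₂ * d + E.a₃ * n₂ * d ^ 2
      = n₁ ^ 3 + E.a₂ * n₁ ^ 2 * d + E.a₄ * n₁ * d ^ 2 + E.a₆ * d ^ 3 := by
    apply hinj
    have h := (WeierstrassCurve.Affine.equation_iff _ _).1 heq
    simp only [gen, WeierstrassCurve.toAffine, WeierstrassCurve.map_a₁, WeierstrassCurve.map_a₂,
      WeierstrassCurve.map_a₃, WeierstrassCurve.map_a₄, WeierstrassCurve.map_a₆, ← hf] at h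
    rw [hX', hY'] at h
    simp only [map_add, map_mul, map_pow]
    field_simp at h
    linear_combination h
  set w := 2 * n₂ + E.a₁ * n₁ + E.a₃ * d with hw
  set v := (n₁ - e * d) ^ 2 - b * d ^ 2 with hv
  have hw0 : w ≠ 0 := by
    intro h0
    apply hne.1
    have : f w = 0 := by rw [h0, map_zero]
    rw [hw] at this
    simp only [map_add, map_mul, map_ofNat] at this
    simp only [gen, WeierstrassCurve.map_a₁, WeierstrassCurve.map_a₃, ← hf]
    rw [hX', hY']
    field_simp
    linear_combination this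
  have hv0 : v ≠ 0 := by
    intro h0
    apply hne.2
    have : f v = 0 := by rw [h0, map_zero]
    rw [hv] at this
    simp only [map_sub, map_mul, map_pow] at this
    rw [hX']
    have h1 : f n₁ / f d - f e = (f n₁ - f e * f d) / f d := by
      field_simp
    rw [h1, div_pow, div_eq_iff (pow_ne_zero 2 hfd)]
    linear_combination this
  have hfin : {t : ℚ | (d * (w * v)).IsRoot t}.Finite := by
    have := (d * (w * v)).roots.toFinset.finite_toSet
    refine this.subset ?_
    intro t ht
    simp only [Finset.mem_coe, Multiset.mem_toFinset]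
    exact (mem_roots (mul_ne_zero hd0 (mul_ne_zero hw0 hv0))).2 ht
  obtain ⟨t, ht, htr⟩ := (hinf.sdiff hfin).nonempty
  have htr' : (d * (w * v)).eval t ≠ 0 := fun h => htr h
  have hdw : (d * (w * v)).eval t = d.eval t * (w.eval t * v.eval t) := by
    rw [eval_mul (p := d), eval_mul (p := w)]
  rw [hdw] at htr'
  have hdt : d.eval t ≠ 0 := left_ne_zero_of_mul htr'
  have hwt : w.eval t ≠ 0 := left_ne_zero_of_mul (right_ne_zero_of_mul htr')
  have hvt : v.eval t ≠ 0 := right_ne_zero_of_mul (right_ne_zero_of_mul htr')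
  have hE' := congrArg (eval t) hE
  simp only [eval_add, eval_mul, eval_pow] at hE'
  have key := ht (n₁.eval t / d.eval t) (n₂.eval t / d.eval t) (by
    rw [WeierstrassCurve.Affine.equation_iff]
    simp only [fib, WeierstrassCurve.toAffine, WeierstrassCurve.map_a₁, WeierstrassCurve.map_a₂,
      WeierstrassCurve.map_a₃, WeierstrassCurve.map_a₄, WeierstrassCurve.map_a₆, coe_evalRingHom]
    field_simp
    linear_combination hE')
  rcases key with key | key
  · apply hwt
    simp only [fib, WeierstrassCurve.map_a₁, WeierstrassCurve.map_a₃, coe_evalRingHom] at key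
    field_simp at key
    rw [hw]
    simp only [eval_add, eval_mul, eval_ofNat]
    linear_combination key
  · apply hvt
    have h1 : n₁.eval t / d.eval t - e.eval t = (n₁.eval t - e.eval t * d.eval t) / d.eval t := by
      field_simp
    rw [h1, div_pow, div_eq_iff (pow_ne_zero 2 hdt)] at key
    rw [hv]
    simp only [eval_sub, eval_mul, eval_pow]
    linear_combination key

end Pool.Agent.G02.H7
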